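import Mathlib

set_option autoImplicit false
open Filter Topology Complex Metric Set

namespace Pool.Agent.H.MP_543b58_an

def Om (A : ℝ) : Set ℂ := {y | A ≤ y.re + |y.im| / 2}

structure Hy (η : ℂ → ℂ) (ε δ : ℕ → ℝ) (N : ℝ) : Prop where
  hN : 12 ≤ N
  e0 : ∀ m, 0 ≤ ε m
  es : ∀ n, ∑ m ∈ Finset.range n, ε m ≤ 1 / 20
  d0 : Tendsto δ atTop (𝓝 0)
  h : ∀ m : ℕ, ∀ y ∈ Om ((N + m) / 2),
    DifferentiableAt ℂ η y ∧ ‖deriv η y‖ ≤ ε m ∧ ‖η y‖ ≤ 1 / 10 ∧ ‖η y‖ ≤ δ m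

noncomputable def bb (η : ℂ → ℂ) (N : ℝ) : ℕ → ℂ
  | 0 => N
  | m + 1 => bb η N m + (1 - η (bb η N m))

noncomputable def DD (η : ℂ → ℂ) (N : ℝ) (m : ℕ) (d : ℂ) : ℂ :=
  d + (η (bb η N (m + 1) + d) - η (bb η N m))

noncomputable def PP (η : ℂ → ℂ) (N : ℝ) : ℕ → ℂ → ℂ
  | 0 => id
  | n + 1 => fun d => PP η N n (DD η N n d)

variable {η : ℂ → ℂ} {ε δ : ℕ → ℝ} {N : ℝ}

lemma om_of {b d : ℂ} {m : ℕ} (hN : 12 ≤ N) (h1 : N + 9 / 10 * m ≤ b.re) (h2 : |b.im| ≤ m / 10)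
    (h : |d.re| ≤ |d.im| / 2 + 6) : b + d ∈ Om ((N + m) / 2) := by
  simp only [Om, mem_ofPred_eq, add_re, add_im]
  have := abs_sub_abs_le_abs_sub d.im (-b.im)
  rw [abs_neg, sub_neg_eq_add, add_comm d.im] at this
  have h3 : (0:ℝ) ≤ m := Nat.cast_nonneg m
  linarith [neg_abs_le d.re]

lemma Hy.b (H : Hy η ε δ N) (m : ℕ) :
    N + 9 / 10 * m ≤ (bb η N m).re ∧ |(bb η N m).im| ≤ m / 10 := by
  induction m with
  | zero => simp [bb]
  | succ m ih =>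
    have h := (H.h m _ (by simpa using om_of (d := 0) H.hN ih.1 ih.2 (by simp))).2.2.1
    have h1 := (abs_re_le_norm _).trans h
    have h2 := (abs_im_le_norm _).trans h
    simp only [bb, add_re, sub_re, one_re, add_im, sub_im, one_im, zero_sub]
    push_cast
    refine ⟨by linarith [le_abs_self (η (bb η N m)).re], (abs_add_le _ _).trans ?_⟩
    rw [abs_neg]; linarith

lemma Hy.om (H : Hy η ε δ N) (m : ℕ) {d : ℂ} (h : |d.re| ≤ |d.im| / 2 + 6) :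
    bb η N m + d ∈ Om ((N + m) / 2) := om_of H.hN (H.b m).1 (H.b m).2 h

lemma Hy.c (H : Hy η ε δ N) (m : ℕ) : ‖1 - η (bb η N m)‖ ≤ 11 / 10 := by
  have h := (H.h m _ (by simpa using H.om m (d := 0) (by simp))).2.2.1
  linarith [norm_sub_le 1 (η (bb η N m)), norm_one (α := ℂ)]

lemma cone {ξ d : ℂ} (hξ : |ξ.re| < 2) (h : ‖d - ξ‖ ≤ (‖ξ‖ + 3) / 5) :
    |d.re| ≤ |d.im| / 2 + 7 / 2 ∧ |ξ.im| / 2 - 1 ≤ |d.im| := by
  have h1 := (abs_re_le_norm _).trans h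
  have h2 := (abs_im_le_norm _).trans h
  have h3 := norm_le_abs_re_add_abs_im ξ
  rw [sub_re] at h1
  rw [sub_im, abs_sub_comm] at h2
  have h4 := abs_sub_abs_le_abs_sub d.re ξ.re
  have h5 := abs_sub_abs_le_abs_sub ξ.im d.im
  constructor <;> linarith [abs_nonneg ξ.im]

lemma cone' {c d : ℂ} (hc : ‖c‖ ≤ 11 / 10) (h : |d.re| ≤ |d.im| / 2 + 7 / 2) :
    |(c + d).re| ≤ |(c + d).im| / 2 + 6 := by
  have h1 := (abs_re_le_norm _).trans hc
  have h2 := (abs_im_le_norm _).trans hc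
  have h3 := abs_add_le c.re d.re
  have h4 := abs_sub_abs_le_abs_sub d.im (-c.im)
  rw [abs_neg, sub_neg_eq_add, add_comm d.im] at h4
  rw [add_re, add_im]
  linarith

lemma Hy.om1 (H : Hy η ε δ N) (m : ℕ) {ξ d : ℂ} (hξ : |ξ.re| < 2)
    (h : ‖d - ξ‖ ≤ (‖ξ‖ + 3) / 5) : bb η N (m + 1) + d ∈ Om ((N + m) / 2) := by
  rw [bb, add_assoc]
  exact H.om m (cone' (H.c m) (cone hξ h).1)

lemma Hy.D1 (H : Hy η ε δ N) (m : ℕ) {ξ d : ℂ} (hξ : |ξ.re| < 2)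
    (h : ‖d - ξ‖ ≤ (‖ξ‖ + 3) / 5) : ‖DD η N m d - d‖ ≤ ε m * (6 / 5 * (‖ξ‖ + 3)) := by
  set c := 1 - η (bb η N m)
  have hm : ∀ y ∈ segment ℝ (bb η N m) (bb η N m + (c + d)), y ∈ Om ((N + m) / 2) := by
    rw [segment_eq_image']
    rintro _ ⟨t, ht, rfl⟩
    refine H.om m ?_
    have := cone' (H.c m) (cone hξ h).1
    simp only [add_sub_cancel_left, real_smul, re_ofReal_mul, im_ofReal_mul, abs_mul,
      abs_of_nonneg ht.1]
    nlinarith [ht.1, ht.2]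
  have := (convex_segment _ _).norm_image_sub_le_of_norm_deriv_le
    (fun y hy => (H.h m y (hm y hy)).1) (fun y hy => (H.h m y (hm y hy)).2.1)
    (left_mem_segment _ _ _) (right_mem_segment _ _ _)
  rw [add_sub_cancel_left] at this
  rw [DD, add_sub_cancel_left, bb, add_assoc]
  refine this.trans (mul_le_mul_of_nonneg_left ?_ (H.e0 m))
  linarith [norm_add_le c d, H.c m, norm_sub_norm_le d ξ]

lemma Hy.D2 (H : Hy η ε δ N) (m : ℕ) {ξ d d' : ℂ} (hξ : |ξ.re| < 2)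
    (h : ‖d - ξ‖ ≤ (‖ξ‖ + 3) / 5) (h' : ‖d' - ξ‖ ≤ (‖ξ‖ + 3) / 5) :
    ‖DD η N m d - DD η N m d'‖ ≤ (1 + ε m) * ‖d - d'‖ := by
  have hm : ∀ y ∈ closedBall (bb η N (m + 1) + ξ) ((‖ξ‖ + 3) / 5), y ∈ Om ((N + m) / 2) := by
    intro y hy
    rw [← add_sub_cancel (bb η N (m + 1)) y]
    exact H.om1 m hξ (by rwa [sub_sub, ← mem_closedBall_iff_norm])
  have := (convex_closedBall _ _).norm_image_sub_le_of_norm_deriv_le
    (fun y hy => (H.h m y (hm y hy)).1) (fun y hy => (H.h m y (hm y hy)).2.1)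
    (x := bb η N (m + 1) + d') (y := bb η N (m + 1) + d)
    (by rwa [mem_closedBall_iff_norm, add_sub_add_left_eq_sub])
    (by rwa [mem_closedBall_iff_norm, add_sub_add_left_eq_sub])
  rw [add_sub_add_left_eq_sub] at this
  have e : DD η N m d - DD η N m d' =
    (d - d') + (η (bb η N (m + 1) + d) - η (bb η N (m + 1) + d')) := by simp only [DD]; ring
  rw [e]
  linarith [norm_add_le (d - d') (η (bb η N (m + 1) + d) - η (bb η N (m + 1) + d'))]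

lemma Hy.P (H : Hy η ε δ N) {ξ : ℂ} (hξ : |ξ.re| < 2) (n : ℕ) : ∀ d : ℂ,
    ‖d - ξ‖ ≤ (1 / 5 - 6 / 5 * ∑ m ∈ Finset.range n, ε m) * (‖ξ‖ + 3) →
    ‖PP η N n d - ξ‖ ≤ (‖ξ‖ + 3) / 5 ∧ DifferentiableAt ℂ (PP η N n) d ∧
    (bb η N 0 + PP η N n d - 1 + η (bb η N 0 + PP η N n d) =
      (fun y => y - 1 + η y)^[n + 1] (bb η N n + d)) ∧
    ∀ d' : ℂ, ‖d' - ξ‖ ≤ (1 / 5 - 6 / 5 * ∑ m ∈ Finset.range n, ε m) * (‖ξ‖ + 3) →
      ‖PP η N n d - PP η N n d'‖ ≤ (1 + 2 * ∑ m ∈ Finset.range n, ε m) * ‖d - d'‖ := by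
  induction n with
  | zero =>
    intro d hd
    simp only [Finset.range_zero, Finset.sum_empty, mul_zero, sub_zero] at hd ⊢
    exact ⟨by simp only [PP, id]; linarith, differentiableAt_id, rfl, fun d' _ => by simp [PP]⟩
  | succ n ih =>
    have s0 : 0 ≤ ∑ m ∈ Finset.range n, ε m := Finset.sum_nonneg fun m _ => H.e0 m
    have s1 := H.es n
    have e0 := H.e0 n
    have r0 : 0 ≤ ‖ξ‖ + 3 := by positivity
    have st : ∀ d : ℂ, ‖d - ξ‖ ≤ (1 / 5 - 6 / 5 * ∑ m ∈ Finset.range (n + 1), ε m) * (‖ξ‖ + 3) →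
        ‖d - ξ‖ ≤ (‖ξ‖ + 3) / 5 ∧ ‖DD η N n d - ξ‖ ≤
          (1 / 5 - 6 / 5 * ∑ m ∈ Finset.range n, ε m) * (‖ξ‖ + 3) := fun d hd => by
      rw [Finset.sum_range_succ] at hd
      have a1 : ‖d - ξ‖ ≤ (‖ξ‖ + 3) / 5 := by nlinarith
      refine ⟨a1, ?_⟩
      linarith [norm_sub_le_norm_sub_add_norm_sub (DD η N n d) d ξ, H.D1 n hξ a1]
    intro d hd
    obtain ⟨a1, a2⟩ := st d hd
    obtain ⟨b1, b2, b3, b4⟩ := ih _ a2
    refine ⟨b1, b2.comp d (differentiableAt_id.add (DifferentiableAt.sub_const ?_ _)), ?_,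
      fun d' hd' => ?_⟩
    · exact (H.h n _ (H.om1 n hξ a1)).1.comp d (differentiableAt_id.const_add _)
    · rw [Function.iterate_succ_apply _ (n + 1)]
      refine b3.trans ?_
      congr 1
      simp only [DD, bb]; ring
    · obtain ⟨c1, c2⟩ := st d' hd'
      refine (b4 _ c2).trans ?_
      rw [Finset.sum_range_succ]
      refine (mul_le_mul_of_nonneg_left (H.D2 n hξ a1 c1) (by positivity)).trans ?_
      rw [← mul_assoc]
      exact mul_le_mul_of_nonneg_right (by nlinarith) (norm_nonneg _)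

lemma PT (n : ℕ) : ∀ d, bb η N 0 + PP η N n d = (fun y => y - 1 + η y)^[n] (bb η N n + d) := by
  induction n with
  | zero => intro d; rfl
  | succ n ih =>
    intro d
    rw [Function.iterate_succ_apply]
    refine (ih _).trans ?_
    congr 1
    simp only [DD, bb]; ring

lemma Hy.sm (H : Hy η ε δ N) {ξ d : ℂ} (n : ℕ) (h : ‖d - ξ‖ ≤ (‖ξ‖ + 3) / 10) :
    ‖d - ξ‖ ≤ (1 / 5 - 6 / 5 * ∑ m ∈ Finset.range n, ε m) * (‖ξ‖ + 3) := by
  nlinarith [H.es n, norm_nonneg ξ]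

lemma Hy.lip (H : Hy η ε δ N) {ξ d : ℂ} (hξ : |ξ.re| < 2) (n : ℕ)
    (h : ‖d - ξ‖ ≤ (‖ξ‖ + 3) / 10) : ‖PP η N n d - PP η N n ξ‖ ≤ 2 * ‖d - ξ‖ :=
  ((H.P hξ n d (H.sm n h)).2.2.2 ξ (H.sm n (by simp; positivity))).trans
    (mul_le_mul_of_nonneg_right (by linarith [H.es n]) (norm_nonneg _))

lemma Hy.st (H : Hy η ε δ N) {ξ : ℂ} (hξ : |ξ.re| < 2) (n : ℕ) :
    ‖PP η N (n + 1) ξ - PP η N n ξ‖ ≤ ε n * (3 * (‖ξ‖ + 3)) := by
  have a := H.D1 n (d := ξ) hξ (by simp; positivity)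
  have e : ε n ≤ 1 / 20 := (Finset.single_le_sum (fun m _ => H.e0 m)
    (Finset.self_mem_range_succ n)).trans (H.es _)
  have := H.lip hξ n (d := DD η N n ξ) (by nlinarith [norm_nonneg ξ])
  change ‖PP η N n (DD η N n ξ) - _‖ ≤ _
  nlinarith [H.e0 n, norm_nonneg ξ]

theorem Hy.fatou (H : Hy η ε δ N) : ∃ ψ : ℂ → ℂ, (∀ ξ : ℂ, |ξ.re| < 2 → DifferentiableAt ℂ ψ ξ ∧
    ψ ξ ∈ Om (N / 2) ∧ |ξ.im| / 2 - 1 ≤ ‖ψ ξ‖) ∧
    ∀ ξ : ℂ, 0 ≤ ξ.re → ξ.re ≤ 1 → ψ (ξ - 1) = ψ ξ - 1 + η (ψ ξ) := by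
  have sm : Summable ε := summable_of_sum_range_le H.e0 H.es
  set q : ℂ → ℂ := fun ξ => ξ + ∑' n, (PP η N (n + 1) ξ - PP η N n ξ) with hq
  have tq : ∀ ξ : ℂ, |ξ.re| < 2 → Tendsto (fun n => PP η N n ξ) atTop (𝓝 (q ξ)) := fun ξ hξ => by
    have := ((Summable.of_norm_bounded (sm.mul_right _) (H.st hξ)).hasSum.tendsto_sum_nat).const_add ξ
    refine this.congr fun n => ?_
    rw [Finset.sum_range_sub (fun n => PP η N n ξ)]
    simp [PP]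
  have bq : ∀ ξ : ℂ, |ξ.re| < 2 → ‖q ξ - ξ‖ ≤ (‖ξ‖ + 3) / 5 := fun ξ hξ =>
    le_of_tendsto' ((tq ξ hξ).sub_const ξ).norm fun n =>
      (H.P hξ n ξ (H.sm n (by simp; positivity))).1
  have oq : ∀ ξ : ℂ, |ξ.re| < 2 → bb η N 0 + q ξ ∈ Om (N / 2) := fun ξ hξ => by
    simpa using H.om 0 (d := q ξ) (by linarith [(cone hξ (bq ξ hξ)).1])
  refine ⟨fun ξ => bb η N 0 + q ξ, fun ξ hξ => ⟨?_, oq ξ hξ, ?_⟩, fun ξ h0 h1 => ?_⟩
  · have op : IsOpen ({ξ : ℂ | |ξ.re| < 2} ∩ ball 0 (‖ξ‖ + 1)) :=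
      (isOpen_lt (by fun_prop) continuous_const).inter isOpen_ball
    have := differentiableOn_tsum_of_summable_norm (sm.mul_right (3 * (‖ξ‖ + 4)))
      (F := fun n ξ => PP η N (n + 1) ξ - PP η N n ξ) (fun n w hw =>
        ((H.P hw.1 _ w (H.sm _ (by simp; positivity))).2.1.sub
          (H.P hw.1 _ w (H.sm _ (by simp; positivity))).2.1).differentiableWithinAt) op
      fun n w hw => (H.st hw.1 n).trans (mul_le_mul_of_nonneg_left
        (by linarith [mem_ball_zero_iff.1 hw.2]) (H.e0 n))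
    exact (differentiableAt_id.add (this.differentiableAt
      (op.mem_nhds ⟨hξ, by simp⟩))).const_add _
  · refine (cone hξ (bq ξ hξ)).2.trans (le_trans (le_of_eq ?_) (abs_im_le_norm _))
    simp [bb]
  · have hξ : |ξ.re| < 2 := abs_lt.2 ⟨by linarith, by linarith⟩
    have hξ' : |(ξ - 1).re| < 2 := by
      rw [sub_re, one_re]; exact abs_lt.2 ⟨by linarith, by linarith⟩
    have c : ContinuousAt η (bb η N 0 + q ξ) :=
      (H.h 0 _ (by simpa using oq ξ hξ)).1.continuousAt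
    have t0 := (tq ξ hξ).const_add (bb η N 0)
    have t1 := (t0.sub_const 1).add (c.tendsto.comp t0)
    have on : ∀ n : ℕ, bb η N n + ξ ∈ Om ((N + n) / 2) := fun n =>
      H.om n (by linarith [abs_nonneg ξ.im])
    have t2 : Tendsto (fun n => PP η N n (ξ - 1 + η (bb η N n + ξ)) - PP η N n (ξ - 1)) atTop
        (𝓝 0) := by
      refine squeeze_zero_norm (fun n => ?_) (by simpa using H.d0.const_mul 2)
      have := H.h n _ (on n)
      refine (H.lip hξ' n ?_).trans ?_ <;> rw [add_sub_cancel_left]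
      · linarith [this.2.2.1, norm_nonneg (ξ - 1)]
      · linarith [this.2.2.2]
    have t3 := (t2.add (tq _ hξ')).const_add (bb η N 0)
    rw [zero_add] at t3
    refine tendsto_nhds_unique t3 (t1.congr fun n => ?_)
    simp only [Function.comp, sub_add_cancel]
    rw [(H.P hξ n ξ (H.sm n (by simp; positivity))).2.2.1, PT, Function.iterate_succ_apply]
    congr 1
    ring

end Pool.Agent.H.MP_543b58_an
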