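import Pool.Agent.H.MP_543b58_an.A

set_option autoImplicit false
open Filter Topology Complex Metric Set

namespace Pool.Agent.H.MP_543b58_an

lemma om_norm {A : ℝ} {y : ℂ} (h : y ∈ Om A) : 2 / 3 * A ≤ ‖y‖ := by
  have h1 : A ≤ y.re + |y.im| / 2 := h
  linarith [re_le_norm y, abs_im_le_norm y]

lemma om_slit {A : ℝ} {y : ℂ} (hA : 0 < A) (h : y ∈ Om A) : y ∈ slitPlane := by
  have h1 : A ≤ y.re + |y.im| / 2 := h
  by_cases h2 : y.im = 0
  · exact Or.inl (by simp [h2] at h1; linarith)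
  · exact Or.inr h2

lemma om_arg {A : ℝ} {y : ℂ} (hA : 0 < A) (h : y ∈ Om A) : |arg y| ≤ 2 * Real.pi / 3 := by
  have h1 : A ≤ y.re + |y.im| / 2 := h
  have h0 := slitPlane_ne_zero (om_slit hA h)
  by_contra! hc
  have h2 := Real.cos_lt_cos_of_nonneg_of_le_pi (by positivity) (abs_arg_le_pi y) hc
  rw [Real.cos_abs, cos_arg h0, show 2 * Real.pi / 3 = Real.pi - Real.pi / 3 by ring,
    Real.cos_pi_sub, Real.cos_pi_div_three, div_lt_iff₀ (norm_pos_iff.2 h0)] at h2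
  linarith [abs_im_le_norm y]

theorem petal {G g : ℂ → ℂ} {p : ℕ} (hp : 0 < p) (hg : AnalyticAt ℂ g 0) (ha : g 0 ≠ 0)
    (hG : ∀ᶠ z in 𝓝 0, G z = z + z ^ (p + 1) * g z) {ρ : ℝ} (hρ : 0 < ρ) :
    ∃ Y : ℂ → ℂ, (∀ ξ : ℂ, |ξ.re| < 2 → DifferentiableAt ℂ Y ξ ∧ Y ξ ≠ 0 ∧ ‖Y ξ‖ < ρ) ∧
      (∀ ξ : ℂ, 0 ≤ ξ.re → ξ.re ≤ 1 → Y (ξ - 1) = G (Y ξ)) ∧
      ∀ e > 0, ∃ R, ∀ ξ : ℂ, |ξ.re| < 2 → R ≤ |ξ.im| → ‖Y ξ‖ < e := by
  have p0 : (p : ℂ) ≠ 0 := by exact_mod_cast hp.ne'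
  have pr : (0:ℝ) < p := by exact_mod_cast hp
  obtain ⟨κ, hκ⟩ := IsAlgClosed.exists_pow_nat_eq ((p * g 0)⁻¹) hp
  have κ0 : κ ≠ 0 := fun h => by
    rw [h, zero_pow hp.ne'] at hκ
    exact inv_ne_zero (mul_ne_zero p0 ha) hκ.symm
  set zz : ℂ → ℂ := fun x => κ * exp (-log x / p) with hzz
  have zp : ∀ x, x ≠ 0 → zz x ^ p = (p * g 0)⁻¹ * x⁻¹ := fun x hx => by
    simp only [hzz, mul_pow, hκ, ← exp_nat_mul]
    rw [mul_div_cancel₀ _ p0, exp_neg, exp_log hx]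
  have zn : ∀ x, x ≠ 0 → ‖zz x‖ = ‖κ‖ * ‖x‖ ^ (-(p:ℝ)⁻¹) := fun x hx => by
    simp only [hzz, norm_mul, norm_exp]
    rw [Real.rpow_def_of_pos (norm_pos_iff.2 hx), ← ofReal_natCast, div_ofReal_re, neg_re, log_re]
    congr 2; ring
  set φ : ℂ → ℂ := fun t => ((1 + t) ^ p)⁻¹ with hφ
  have φa : AnalyticAt ℂ φ 0 := ((analyticAt_const.add analyticAt_id).pow p).inv (by simp)
  have φd : HasDerivAt φ (-p) 0 :=
    ((((hasDerivAt_id (0:ℂ)).const_add 1).pow p).inv (by simp)).congr_deriv (by simp)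
  obtain ⟨pp, hpp⟩ := φa
  have sa : AnalyticAt ℂ (dslope φ 0) 0 := ⟨_, hpp.has_fpower_series_dslope_fslope⟩
  have ta : AnalyticAt ℂ (fun z => z ^ p * g z) 0 := (analyticAt_id.pow p).mul hg
  set θ : ℂ → ℂ := fun z => 1 + g z * dslope φ 0 (z ^ p * g z) / (p * g 0) with hθ
  have θa : AnalyticAt ℂ θ 0 := analyticAt_const.add
    ((hg.mul (sa.fun_comp_of_eq ta (by simp [hp.ne']))).div_const)
  have θ0 : θ 0 = 0 := by
    simp only [hθ, zero_pow hp.ne', zero_mul, dslope_same, φd.deriv]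
    field_simp; ring
  have tl : Tendsto (fun z => ‖(p : ℂ) * log (1 + z ^ p * g z)‖) (𝓝 0) (𝓝 0) := by
    have : ContinuousAt (fun z => ‖(p : ℂ) * log (1 + z ^ p * g z)‖) 0 :=
      (continuousAt_const.mul ((continuousAt_const.add ta.continuousAt).clog
        (by simp [hp.ne']))).norm
    simpa [hp.ne'] using this.tendsto
  set C := ‖deriv θ 0‖ + 1 with hC
  have C0 : 0 < C := by positivity
  obtain ⟨r, r0, hr⟩ := Metric.eventually_nhds_iff.1 (hG.and (θa.eventually_analyticAt.and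
    ((θa.deriv.continuousAt.norm.eventually (ge_mem_nhds (lt_add_one _))).and
    ((tl.eventually (ge_mem_nhds one_pos)).and
    ((ContinuousAt.eventually_ne (continuousAt_const.add ta.continuousAt)
      (y := 0) (show (1:ℂ) + 0 ^ p * g 0 ≠ 0 by simp [hp.ne'])).and
      (ball_mem_nhds 0 hρ))))))
  simp only [dist_zero_right] at hr
  have θb : ∀ z : ℂ, ‖z‖ < r → ‖θ z‖ ≤ C * ‖z‖ := fun z hz => by
    simpa [θ0] using (convex_ball (0:ℂ) r).norm_image_sub_le_of_norm_deriv_le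
      (fun y hy => (hr (mem_ball_zero_iff.1 hy)).2.1.differentiableAt)
      (fun y hy => (hr (mem_ball_zero_iff.1 hy)).2.2.1) (mem_ball_self r0)
      (mem_ball_zero_iff.2 hz)
  set ω : ℝ → ℝ := fun t => ‖κ‖ * t ^ (-(p:ℝ)⁻¹) with hω
  have ωt : Tendsto ω atTop (𝓝 0) := by
    simpa using (tendsto_rpow_neg_atTop (inv_pos.2 pr)).const_mul ‖κ‖
  have ωb : ∀ (t : ℝ) (x : ℂ), 0 < t → t ≤ ‖x‖ → ‖zz x‖ ≤ ω t := fun t x ht hx => by
    rw [zn x (norm_pos_iff.1 (ht.trans_le hx))]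
    exact mul_le_mul_of_nonneg_left (Real.rpow_le_rpow_of_nonpos ht hx
      (neg_nonpos.2 (inv_pos.2 pr).le)) (norm_nonneg _)
  have k3 : Tendsto (fun k : ℕ => (k : ℝ) / 3) atTop atTop :=
    tendsto_natCast_atTop_atTop.atTop_div_const (by norm_num)
  set e : ℕ → ℝ := fun k => C * ω (k / 3) / (k / 3) with he
  have e0 : ∀ k, 0 ≤ e k := fun k => by simp only [he, hω]; positivity
  have es : Summable e := by
    refine ((Real.summable_nat_rpow.2 (show -(p:ℝ)⁻¹ - 1 < -1 by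
      linarith [inv_pos.2 pr])).mul_left (C * ‖κ‖ * 3 / 3 ^ (-(p:ℝ)⁻¹))).congr fun k => ?_
    rcases Nat.eq_zero_or_pos k with rfl | hk
    · have : -(p:ℝ)⁻¹ - 1 ≠ 0 := by linarith [inv_pos.2 pr]
      simp [he, Real.zero_rpow this]
    · have : (0:ℝ) < k := by exact_mod_cast hk
      simp only [he, hω]
      rw [Real.div_rpow this.le (by norm_num), Real.rpow_sub_one this.ne']
      field_simp
  obtain ⟨N0, hN0⟩ := eventually_atTop.1 ((eventually_ge_atTop 12).and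
    (((tendsto_sum_nat_add e).eventually (ge_mem_nhds (show (0:ℝ) < 1 / 20 by norm_num))).and
    ((((ωt.comp k3).const_mul C).eventually (ge_mem_nhds (show C * 0 < 1 / 10 by norm_num))).and
    ((ωt.comp k3).eventually (gt_mem_nhds r0)))))
  have N12 : (12:ℝ) ≤ N0 := by exact_mod_cast (hN0 N0 le_rfl).1
  have om : ∀ m : ℕ, ∀ y ∈ Om ((N0 + m) / 2), y ∈ slitPlane ∧ ((m + N0 : ℕ) : ℝ) / 3 ≤ ‖y‖ ∧
      ‖zz y‖ ≤ ω (((m + N0 : ℕ) : ℝ) / 3) ∧ ‖zz y‖ < r := fun m y hy => by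
    have a1 : ((m + N0 : ℕ) : ℝ) / 3 ≤ ‖y‖ := by push_cast; linarith [om_norm hy]
    have a2 := ωb _ y (by push_cast; positivity) a1
    exact ⟨om_slit (by positivity) hy, a1, a2, a2.trans_lt (hN0 _ (Nat.le_add_left _ _)).2.2.2⟩
  have zd : ∀ y ∈ slitPlane, HasDerivAt zz (zz y * (-y⁻¹ / p)) y := fun y hy =>
    ((((hasDerivAt_log hy).neg.div_const p).cexp).const_mul κ).congr_deriv (by
      simp only [hzz, Pi.neg_apply]; ring)
  have H : Hy (fun y => θ (zz y)) (fun m => e (m + N0)) (fun m => C * ω (((m + N0 : ℕ) : ℝ) / 3))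
      N0 := by
    refine ⟨N12, fun m => e0 _, fun n => ?_, ?_, fun m y hy => ?_⟩
    · exact (((summable_nat_add_iff N0).2 es).sum_le_tsum _ fun i _ => e0 _).trans
        (hN0 N0 le_rfl).2.1
    · simpa using ((ωt.comp k3).comp (tendsto_add_atTop_nat N0)).const_mul C
    · obtain ⟨a1, a2, a3, a4⟩ := om m y hy
      have d := (hr a4).2.1.differentiableAt.hasDerivAt.comp y (zd y a1)
      have b : ‖θ (zz y)‖ ≤ C * ω (((m + N0 : ℕ) : ℝ) / 3) :=
        (θb _ a4).trans (mul_le_mul_of_nonneg_left a3 C0.le)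
      refine ⟨d.differentiableAt, ?_, b.trans (hN0 _ (Nat.le_add_left _ _)).2.2.1, b⟩
      rw [show deriv (fun y => θ (zz y)) y = _ from d.deriv]
      simp only [he, norm_mul, norm_div, norm_neg, norm_inv, Complex.norm_natCast]
      have p1 : (1:ℝ) ≤ p := by exact_mod_cast hp
      have k0 : 0 < ((m + N0 : ℕ) : ℝ) / 3 := by push_cast; positivity
      rw [mul_div_assoc]
      refine mul_le_mul (hr a4).2.2.1 ?_ (by positivity) C0.le
      rw [div_eq_mul_inv (ω _)]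
      exact mul_le_mul a3 ((div_le_self (by positivity) p1).trans (inv_anti₀ k0 a2))
        (by positivity) ((norm_nonneg _).trans a3)
  obtain ⟨ψ, h1, h2⟩ := H.fatou
  have o0 : ∀ ξ : ℂ, |ξ.re| < 2 → ψ ξ ∈ slitPlane ∧ ‖zz (ψ ξ)‖ < r := fun ξ hξ => by
    have := om 0 (ψ ξ) (by simpa using (h1 ξ hξ).2.1)
    exact ⟨this.1, this.2.2.2⟩
  refine ⟨fun ξ => zz (ψ ξ), fun ξ hξ => ⟨(zd _ (o0 ξ hξ).1).differentiableAt.comp ξ (h1 ξ hξ).1,
    mul_ne_zero κ0 (exp_ne_zero _), (hr (o0 ξ hξ).2).2.2.2.2.2⟩,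
    fun ξ a1 a2 => ?_, fun e e0 => ?_⟩
  · have hξ : |ξ.re| < 2 := abs_lt.2 ⟨by linarith, by linarith⟩
    obtain ⟨b1, b2⟩ := o0 ξ hξ
    obtain ⟨c1, -, -, c2, c3, -⟩ := hr b2
    have c4 := om_arg (by positivity) (h1 ξ hξ).2.1
    have y0 := slitPlane_ne_zero b1
    have c5 := zp _ y0
    simp only [h2 ξ a1 a2]
    generalize ψ ξ = y at *
    have c3' : 1 + zz y ^ p * g (zz y) ≠ 0 := c3
    have e1 : y - 1 + θ (zz y) = exp (log y - p * log (1 + zz y ^ p * g (zz y))) := by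
      have := sub_smul_dslope φ 0 (zz y ^ p * g (zz y))
      rw [exp_sub, exp_log y0, exp_nat_mul, exp_log c3', div_eq_mul_inv]
      simp only [hφ, sub_zero, smul_eq_mul, add_zero, one_pow, inv_one] at this
      rw [← sub_add_cancel ((1 + zz y ^ p * g (zz y)) ^ p)⁻¹ 1, ← this]
      simp only [hθ]
      generalize dslope (fun t : ℂ => ((1 + t) ^ p)⁻¹) 0 (zz y ^ p * g (zz y)) = s
      rw [c5]
      field_simp
      ring
    have c6 := abs_le.1 ((abs_im_le_norm _).trans c2)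
    have c7 := abs_le.1 c4
    rw [e1, c1]
    have e2 : zz (exp (log y - p * log (1 + zz y ^ p * g (zz y)))) =
        zz y * exp (log (1 + zz y ^ p * g (zz y))) := by
      generalize log (1 + zz y ^ p * g (zz y)) = l at *
      simp only [hzz]
      rw [log_exp, mul_assoc, ← exp_add]
      · congr 2; field_simp; ring
      all_goals rw [sub_im, log_im]; linarith [Real.pi_gt_three]
    rw [e2, exp_log c3']
    ring
  · obtain ⟨T, hT⟩ := eventually_atTop.1 ((ωt.eventually (gt_mem_nhds e0)).and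
      (eventually_gt_atTop 0))
    refine ⟨2 * T + 2, fun ξ hξ hR => ?_⟩
    exact (ωb T _ (hT T le_rfl).2 (by linarith [(h1 ξ hξ).2.2])).trans_lt (hT T le_rfl).1

end Pool.Agent.H.MP_543b58_an
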