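import Pool.Agent.H.MP_543b58_an.B

set_option autoImplicit false
open Filter Topology Complex Metric Set
open scoped ComplexConjugate

namespace Pool.Agent.H.MP_543b58_an

lemma dsl {f : ℂ → ℂ} (h : AnalyticAt ℂ f 0) (h0 : f 0 = 0) :
    AnalyticAt ℂ (dslope f 0) 0 ∧ ∀ z, f z = z * dslope f 0 z := by
  obtain ⟨pp, hp⟩ := h
  refine ⟨⟨_, hp.has_fpower_series_dslope_fslope⟩, fun z => ?_⟩
  simpa [h0] using (sub_smul_dslope f 0 z).symm

theorem exY {f : ℂ → ℂ} (hf : AnalyticAt ℂ f 0) (h0 : f 0 = 0) (h1 : deriv f 0 = 0)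
    (h2 : iteratedDeriv 2 f 0 ≠ 0) {n : ℕ} (h3 : iteratedDeriv (2 * n + 1) f 0 ≠ 0) {r : ℝ}
    (hr : 0 < r) :
    ∃ Y : ℂ → ℂ, (∀ ξ : ℂ, |ξ.re| < 2 → DifferentiableAt ℂ Y ξ ∧ f (Y ξ) ≠ 0 ∧ ‖Y ξ‖ < r) ∧
      (∀ ξ : ℂ, 0 ≤ ξ.re → ξ.re ≤ 1 → f (Y (ξ - 1)) = f (-Y ξ)) ∧
      ∀ e > 0, ∃ R, ∀ ξ : ℂ, |ξ.re| < 2 → R ≤ |ξ.im| → ‖Y ξ‖ < e := by
  obtain ⟨a1, a2⟩ := dsl hf h0
  obtain ⟨ua, a3⟩ := dsl a1 (by rw [dslope_same, h1])
  set u := dslope (dslope f 0) 0
  have fu : f = fun z => z ^ 2 * u z := by ext z; rw [a2, a3]; ring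
  have u0 : u 0 ≠ 0 := fun h => h2 (by
    have e : deriv f =ᶠ[𝓝 0] fun z => 2 * z * u z + z ^ 2 * deriv u z := by
      filter_upwards [ua.eventually_analyticAt] with z hz
      rw [fu]
      exact (((hasDerivAt_pow 2 z).mul hz.differentiableAt.hasDerivAt).congr_deriv (by simp)).deriv
    rw [iteratedDeriv_succ, iteratedDeriv_one, e.deriv_eq]
    exact (((((hasDerivAt_id (0:ℂ)).const_mul 2).mul ua.differentiableAt.hasDerivAt).add
      ((hasDerivAt_pow 2 0).mul ua.deriv.differentiableAt.hasDerivAt)).congr_deriv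
      (by simp [h])).deriv)
  set v : ℂ → ℂ := fun z => exp (log (u z / u 0) / 2) with hv
  have va : AnalyticAt ℂ v 0 := ((ua.div_const.clog (by simp [u0])).div_const).cexp
  set h : ℂ → ℂ := fun z => z * v z with hh
  have ha : AnalyticAt ℂ h 0 := analyticAt_id.mul va
  have hd : HasDerivAt h 1 0 :=
    ((hasDerivAt_id (0:ℂ)).mul va.differentiableAt.hasDerivAt).congr_deriv (by simp [hv, u0])
  have hz : h 0 = 0 := by simp [hh]
  have un : ∀ᶠ z in 𝓝 0, u z ≠ 0 := ua.continuousAt.eventually_ne u0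
  have fh : ∀ᶠ z in 𝓝 0, f z = u 0 * h z ^ 2 := by
    filter_upwards [un] with z hz
    simp only [fu, hh, hv, mul_pow, ← exp_nat_mul]
    rw [show ((2:ℕ):ℂ) * (log (u z / u 0) / 2) = log (u z / u 0) by push_cast; ring,
      exp_log (div_ne_zero hz u0)]
    field_simp
  have hd' : deriv h 0 ≠ 0 := by rw [hd.deriv]; exact one_ne_zero
  set k := ha.hasStrictDerivAt.localInverse _ _ _ hd'
  have ka : AnalyticAt ℂ k 0 := hz ▸ ha.analyticAt_localInverse hd'
  have kd : HasDerivAt k 1 0 := by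
    simpa [hz, hd.deriv] using (ha.hasStrictDerivAt.to_localInverse hd').hasDerivAt
  have k0 : k 0 = 0 := by
    simpa [hz] using (ha.hasStrictDerivAt.eventually_left_inverse hd').self_of_nhds
  have kr : ∀ᶠ y in 𝓝 0, h (k y) = y := hz ▸ ha.hasStrictDerivAt.eventually_right_inverse hd'
  have ma : AnalyticAt ℂ (fun z => -h (-z)) 0 :=
    (ha.fun_comp_of_eq analyticAt_id.neg (by simp)).neg
  have md : HasDerivAt (fun z => -h (-z)) 1 0 :=
    (HasDerivAt.comp_of_eq (0:ℂ) hd (hasDerivAt_neg 0) (by simp)).neg.congr_deriv (by simp)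
  set G : ℂ → ℂ := fun z => k (-h (-z)) with hG
  have Ga : AnalyticAt ℂ G 0 := ka.fun_comp_of_eq ma (by simp [hz])
  have G0 : G 0 = 0 := by simp [hG, hz, k0]
  have Gd : HasDerivAt G 1 0 :=
    (HasDerivAt.comp_of_eq (0:ℂ) kd md (by simp [hz])).congr_deriv (by simp)
  have fG : ∀ᶠ z in 𝓝 0, f (G z) = f (-z) := by
    have t1 : Tendsto G (𝓝 0) (𝓝 0) := by simpa [G0] using Ga.continuousAt.tendsto
    have t2 : Tendsto (fun z => -h (-z)) (𝓝 0) (𝓝 0) := by
      simpa [hz] using ma.continuousAt.tendsto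
    have t3 : Tendsto (fun z : ℂ => -z) (𝓝 0) (𝓝 0) := by
      simpa using (continuous_neg (G := ℂ)).tendsto 0
    filter_upwards [t1.eventually fh, t2.eventually kr, t3.eventually fh] with z b1 b2 b3
    rw [b1, b3, b2, neg_sq]
  obtain ⟨j, g, g1, g2, g3⟩ := (Ga.sub analyticAt_id).exists_eventuallyEq_pow_smul_nonzero_iff.2
    fun h => h3 (by
      have e : f =ᶠ[𝓝 0] fun z => f (-z) := by
        filter_upwards [h, fG] with z b1 b2
        rw [← b2, show G z = z from sub_eq_zero.1 b1]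
      have := e.iteratedDeriv_eq (2 * n + 1)
      rw [iteratedDeriv_comp_neg, pow_succ, pow_mul, neg_zero] at this
      simp only [neg_one_sq, one_pow, one_mul, smul_eq_mul] at this
      linear_combination this / 2)
  simp only [Pi.sub_apply, id, sub_zero, smul_eq_mul] at g3
  obtain ⟨p, p0, rfl⟩ : ∃ p, 0 < p ∧ j = p + 1 := by
    rcases j with _ | _ | j
    · exact absurd (by simpa [G0] using g3.self_of_nhds.symm) g2
    · have := (Gd.sub (hasDerivAt_id 0)).unique (((hasDerivAt_pow (0 + 1) 0).mul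
        g1.differentiableAt.hasDerivAt).congr_of_eventuallyEq g3)
      exact absurd (by simpa using this.symm) g2
    · exact ⟨j + 1, by omega, rfl⟩
  obtain ⟨ρ, ρ0, hρ⟩ := Metric.eventually_nhds_iff.1 (fG.and (un.and (ball_mem_nhds 0 hr)))
  simp only [dist_zero_right] at hρ
  obtain ⟨Y, y1, y2, y3⟩ := petal (G := G) p0 g1 g2 (g3.mono fun z hz => by rw [← hz]; ring) ρ0
  refine ⟨Y, fun ξ hξ => ⟨(y1 ξ hξ).1, ?_, (hρ (y1 ξ hξ).2.2).2.2⟩, fun ξ b1 b2 => ?_, y3⟩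
  · rw [fu]
    exact mul_ne_zero (pow_ne_zero _ (y1 ξ hξ).2.1) (hρ (y1 ξ hξ).2.2).2.1
  · rw [y2 ξ b1 b2]
    exact (hρ (y1 ξ (abs_lt.2 ⟨by linarith, by linarith⟩)).2.2).1

noncomputable def sg (w : ℂ) : ℂ := -1 / 4 + I / (2 * Real.pi) * log ((1 + w) / (1 - w))

lemma sg_re (w : ℂ) : (sg w).re = -1 / 4 - arg ((1 + w) / (1 - w)) / (2 * Real.pi) := by
  have : I / (2 * Real.pi) = ((2 * Real.pi)⁻¹ : ℝ) * I := by push_cast; ring
  rw [sg, this, mul_assoc, add_re, re_ofReal_mul, mul_re, log_im]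
  simp; ring

lemma sg_im (w : ℂ) : (sg w).im = Real.log ‖(1 + w) / (1 - w)‖ / (2 * Real.pi) := by
  have : I / (2 * Real.pi) = ((2 * Real.pi)⁻¹ : ℝ) * I := by push_cast; ring
  rw [sg, this, mul_assoc, add_im, im_ofReal_mul, mul_im, log_re]
  simp; ring

lemma sg_lt (w : ℂ) : |(sg w).re| < 1 := by
  have h := abs_le.1 (abs_arg_le_pi ((1 + w) / (1 - w)))
  have p := Real.pi_pos
  have a : arg ((1 + w) / (1 - w)) / (2 * Real.pi) ≤ 1 / 2 := by
    rw [div_le_iff₀ (by positivity)]; linarith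
  have b : -(1 / 2) ≤ arg ((1 + w) / (1 - w)) / (2 * Real.pi) := by
    rw [le_div_iff₀ (by positivity)]; linarith
  rw [sg_re, abs_lt]; constructor <;> linarith

lemma q_re (w : ℂ) : ((1 + w) / (1 - w)).re = (1 - ‖w‖ ^ 2) / normSq (1 - w) := by
  rw [div_re, ← add_div, Complex.sq_norm, normSq_apply w]
  congr 1; simp; ring

lemma q_ne {w : ℂ} (h1 : w ≠ 1) (h2 : w ≠ -1) : (1 + w) / (1 - w) ≠ 0 :=
  div_ne_zero (fun h => h2 (by linear_combination h)) (sub_ne_zero.2 h1.symm)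

lemma sg_d {w : ℂ} (h : ‖w‖ ≤ 1) (h1 : w ≠ 1) (h2 : w ≠ -1) : DifferentiableAt ℂ sg w := by
  have : (1 + w) / (1 - w) ∈ slitPlane := by
    have a : 0 ≤ ((1 + w) / (1 - w)).re := by
      rw [q_re]; exact div_nonneg (by nlinarith [norm_nonneg w]) (normSq_nonneg _)
    by_cases b : ((1 + w) / (1 - w)).im = 0
    · exact Or.inl (lt_of_le_of_ne a fun c => q_ne h1 h2 (Complex.ext c.symm b))
    · exact Or.inr b
  exact (((differentiableAt_id.const_add 1).div (differentiableAt_id.const_sub 1)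
    (sub_ne_zero.2 h1.symm)).clog this).const_mul _ |>.const_add _

lemma sg_b {w : ℂ} (h : ‖w‖ = 1) (h1 : w ≠ 1) (h2 : w ≠ -1) :
    (sg w).re = 0 ∨ (sg w).re = -1 / 2 := by
  have a : ((1 + w) / (1 - w)).re = 0 := by rw [q_re, h]; simp
  have p := Real.pi_pos
  rw [sg_re]
  rcases lt_trichotomy ((1 + w) / (1 - w)).im 0 with b | b | b
  · left; rw [arg_eq_neg_pi_div_two_iff.2 ⟨a, b⟩]; field_simp; ring
  · exact absurd (Complex.ext a b) (q_ne h1 h2)
  · right; rw [arg_eq_pi_div_two_iff.2 ⟨a, b⟩]; field_simp; ring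

lemma sg_t {c : ℂ} (hc : c = 1 ∨ c = -1) : Tendsto (fun w => |(sg w).im|) (𝓝[≠] c) atTop := by
  have key : Tendsto (fun w : ℂ => Real.log ‖(c - w) / (c + w)‖) (𝓝[≠] c) atBot := by
    have c0 : c + c ≠ 0 := by rcases hc with rfl | rfl <;> norm_num
    refine Real.tendsto_log_nhdsNE_zero.comp (tendsto_nhdsWithin_iff.2 ⟨?_, ?_⟩)
    · have : ContinuousAt (fun w : ℂ => ‖(c - w) / (c + w)‖) c := by fun_prop (disch := assumption)
      simpa using this.tendsto.mono_left nhdsWithin_le_nhds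
    · filter_upwards [self_mem_nhdsWithin, mem_nhdsWithin_of_mem_nhds
        (ContinuousAt.eventually_ne (g := fun w : ℂ => c + w) (x := c) (by fun_prop) c0)]
        with w a b
      exact norm_ne_zero_iff.2 (div_ne_zero (sub_ne_zero.2 (Ne.symm a)) b)
  refine ((tendsto_abs_atBot_atTop.comp key).atTop_div_const Real.two_pi_pos).congr fun w => ?_
  rw [sg_im, abs_div, abs_of_pos Real.two_pi_pos, Function.comp]
  rcases hc with rfl | rfl
  · rw [← inv_div (1 - w), norm_inv, Real.log_inv, abs_neg]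
  · rw [show (-1 - w) / (-1 + w) = (1 + w) / (1 - w) by
      rw [← neg_div_neg_eq]; congr 1 <;> ring]

end Pool.Agent.H.MP_543b58_an
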